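import Mathlib
import Pool.Agent.H83.EUId

set_option autoImplicit false

namespace Pool.Agent.Results.MP_8a0632_lc.RowsColumns

open Finset Filter Topology Pool.Agent.H83.EUId
open scoped Classical

/-- proper ideal on the naturals containing the finite sets -/
def IsIdeal (I : Set (Set ℕ)) : Prop :=
  (∀ A ∈ I, ∀ B ∈ I, A ∪ B ∈ I) ∧ (∀ A ∈ I, ∀ B, B ⊆ A → B ∈ I) ∧ Set.univ ∉ I ∧
    ∀ A : Set ℕ, A.Finite → A ∈ I

/-- the density zero ideal -/
def Z : Set (Set ℕ) :=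
  {A | Tendsto (fun n : ℕ => ((A ∩ Set.Iio n).ncard : ℝ) / n) atTop (𝓝 0)}

/-- the ideal `EU_f` -/
def EU (f : ℕ → ℝ) : Set (Set ℕ) :=
  {A | Tendsto (fun n => (∑ i ∈ range n, A.indicator f i) / ∑ i ∈ range n, f i) atTop (𝓝 0)}

/-- Erdos-Ulam ideal -/
def IsEU (I : Set (Set ℕ)) : Prop :=
  ∃ f : ℕ → ℝ, (∀ i, 0 ≤ f i) ∧ Tendsto (fun n => ∑ i ∈ range n, f i) atTop atTop ∧
    Tendsto (fun n => f n / ∑ i ∈ range (n + 1), f i) atTop (𝓝 0) ∧ I = EU f

/-- Rudin-Blass order -/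
def RB (I J : Set (Set ℕ)) : Prop :=
  ∃ φ : ℕ → ℕ, (∀ n, (φ ⁻¹' {n}).Finite) ∧ ∀ A, A ∈ I ↔ φ ⁻¹' A ∈ J

/-- Katetov order -/
def Kat (I J : Set (Set ℕ)) : Prop := ∃ φ : ℕ → ℕ, ∀ A ∈ I, φ ⁻¹' A ∈ J

theorem mem_EU {f : ℕ → ℝ} {A : Set ℕ} : A ∈ EU f ↔
    Tendsto (fun n => ms (range n) f A / ∑ i ∈ range n, f i) atTop (𝓝 0) := by
  simp only [EU, ms, sum_filter, Set.indicator_apply, Set.mem_setOf_eq]

def blk (j : ℕ) : Finset ℕ := Ico (2 ^ j - 1) (2 ^ j - 1 + 2 ^ j)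

theorem mem_blk {i j : ℕ} : i ∈ blk j ↔ Nat.log 2 (i + 1) = j := by
  have : 0 < 2 ^ j := by positivity
  rw [Nat.log_eq_iff (Or.inr ⟨by norm_num, by omega⟩), blk, mem_Ico, pow_succ]
  omega

theorem mem_Z {A : Set ℕ} : A ∈ Z ↔
    Tendsto (fun j => (((blk j).filter (· ∈ A)).card : ℝ) / 2 ^ j) atTop (𝓝 0) := by
  have h := eu_iff (A := A) (f := fun _ => 1) (fun _ => zero_le_one)
    (by simpa using tendsto_natCast_atTop_atTop) (s := blk) fun i j => by
      simp [mem_blk, lev, Nat.floor_add_one]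
  simp only [ms_div] at h
  simp only [ms, sum_const, card_range, nsmul_eq_mul, mul_one] at h
  rw [← h, Z, Set.mem_setOf_eq]
  refine tendsto_congr fun n => ?_
  rw [← Set.ncard_coe_finset]
  congr 3
  ext i
  simp [and_comm]

noncomputable def en : ℕ × ℕ × ℕ ≃ ℕ := Classical.choice ⟨Denumerable.eqv _⟩

def kk (m : ℕ) : ℕ := Nat.log 2 m - 1

noncomputable def pt (m r : ℕ) : ℕ :=
  en (if m % 2 = 0 then (kk m, m / 2 % 2 ^ kk m, r) else (kk m, r, m / 2 % 2 ^ kk m))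

theorem pt_inj (m : ℕ) : Function.Injective (pt m) := fun r r' h => by
  have := en.injective h
  split_ifs at this <;> simpa using this

theorem pt_fst (m r : ℕ) : (en.symm (pt m r)).1 = kk m := by
  rw [pt, Equiv.symm_apply_apply]; split_ifs <;> rfl

theorem kk_top : Tendsto kk atTop atTop := (tendsto_sub_atTop_nat 1).comp tendsto_log

theorem kk_le (m : ℕ) : kk m ≤ m := (Nat.sub_le _ _).trans (Nat.log_le_self _ _)

theorem kk_eq {k x : ℕ} (h : x < 2 ^ (k + 1)) : kk (2 ^ (k + 1) + x) = k := by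
  rw [kk, (Nat.log_eq_iff (Or.inl k.succ_ne_zero)).2 ⟨by omega, by rw [pow_succ _ (k + 1)]; omega⟩]
  rfl

theorem pt_row {k i : ℕ} (h : i < 2 ^ k) (r : ℕ) : pt (2 ^ (k + 1) + 2 * i) r = en (k, i, r) := by
  rw [pt, kk_eq (by omega), if_pos (by omega), show (2 ^ (k + 1) + 2 * i) / 2 = 2 ^ k + i by omega,
    Nat.add_mod_left, Nat.mod_eq_of_lt h]

theorem pt_col {k i : ℕ} (h : i < 2 ^ k) (r : ℕ) :
    pt (2 ^ (k + 1) + (2 * i + 1)) r = en (k, r, i) := by
  rw [pt, kk_eq (by omega), if_neg (by omega),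
    show (2 ^ (k + 1) + (2 * i + 1)) / 2 = 2 ^ k + i by omega, Nat.add_mod_left, Nat.mod_eq_of_lt h]

noncomputable def φ (x : ℕ) : ℕ := pt (Nat.log 2 (x + 1)) ((x + 1) % 2 ^ kk (Nat.log 2 (x + 1)))

noncomputable def line (m : ℕ) : Finset ℕ := (range (2 ^ kk m)).image (pt m)

theorem nu_eq (m : ℕ) (A : Set ℕ) : ms (line m) (fun _ => 1 / 2 ^ kk m) A =
    (((range (2 ^ kk m)).filter fun r => pt m r ∈ A).card : ℝ) / 2 ^ kk m := by
  rw [ms_div, ms, line, filter_image, sum_const, card_image_of_injective _ (pt_inj m)]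
  simp

theorem mem_I {A : Set ℕ} : φ ⁻¹' A ∈ Z ↔
    Tendsto (fun m => ms (line m) (fun _ => 1 / 2 ^ kk m) A) atTop (𝓝 0) := by
  rw [mem_Z]
  refine tendsto_congr fun m => ?_
  have h := cntp (fun r => pt m r ∈ A) (a := 2 ^ kk m) 1 (2 ^ m - 1) (2 ^ (m - kk m))
  rw [← pow_add, Nat.sub_add_cancel (kk_le m)] at h
  rw [nu_eq, filter_congr (q := fun x => pt m ((x + 1) % 2 ^ kk m) ∈ A) fun x hx => by
    rw [Set.mem_preimage, φ, mem_blk.1 hx], blk]
  erw [h]
  have : (2 : ℝ) ^ m = 2 ^ (m - kk m) * 2 ^ kk m := by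
    rw [← pow_add, Nat.sub_add_cancel (kk_le m)]
  rw [this]
  push_cast
  field_simp

noncomputable def ψ (x : ℕ) : ℕ := 2 ^ (en.symm x).1 - 1 + ((en.symm x).2.1 + (en.symm x).2.2) %
  2 ^ (en.symm x).1 + ((en.symm x).2.1 / 2 ^ (en.symm x).1 + (en.symm x).2.2 / 2 ^ (en.symm x).1)

theorem nu_psi (m : ℕ) (A : Set ℕ) : ms (line m) (fun _ => 1 / 2 ^ kk m) (ψ ⁻¹' A) =
    (((blk (kk m)).filter (· ∈ A)).card : ℝ) / 2 ^ kk m := by
  have h := cntp (fun r => 2 ^ kk m - 1 + r ∈ A) (a := 2 ^ kk m) (m / 2 % 2 ^ kk m) 0 1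
  rw [zero_add, one_mul, one_mul, ← range_eq_Ico] at h
  have h0 : m / 2 % 2 ^ kk m / 2 ^ kk m = 0 := Nat.div_eq_of_lt (Nat.mod_lt _ (by positivity))
  rw [nu_eq, filter_congr (q := fun r => 2 ^ kk m - 1 + (r + m / 2 % 2 ^ kk m) % 2 ^ kk m ∈ A)
    fun r hr => by
      rw [Set.mem_preimage, ψ, pt, Equiv.symm_apply_apply]
      split_ifs <;> simp only [h0, Nat.div_eq_of_lt (mem_range.1 hr), add_zero, add_comm r]]
  erw [h]
  congr 2
  have e := map_add_left_Ico 0 (2 ^ kk m) (2 ^ kk m - 1)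
  rw [add_zero] at e
  rw [blk, range_eq_Ico, ← e, filter_map, card_map]
  rfl

theorem not_eu : ¬ IsEU {A | φ ⁻¹' A ∈ Z} := by
  rintro ⟨f, hf, hF, -, hI⟩
  obtain ⟨s, hs⟩ := exists_blocks hF
  have key : ∀ A, Tendsto (fun m => ms (line m) (fun _ => 1 / 2 ^ kk m) A) atTop (𝓝 0) ↔
      Tendsto (fun j => ms (s j) (fun i => f i / 2 ^ j) A) atTop (𝓝 0) := fun A => by
    rw [← mem_I, ← eu_iff hf hF hs, ← mem_EU, ← hI]; rfl
  have hw : ∀ j i, 0 ≤ f i / 2 ^ j := fun j i => div_nonneg (hf i) (by positivity)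
  obtain ⟨δ, hδ, N1, h1⟩ := unif s line _ (fun m _ => 1 / 2 ^ kk m) hw (fun _ _ => by positivity)
    (fun i => (Set.finite_singleton (lev f i)).subset fun j hj => ((hs i j).1 hj).symm)
    (fun A => (key A).2) (by norm_num : (0 : ℝ) < 1 / 4)
  obtain ⟨η, hη, N2, h2⟩ := unif line s (fun m _ => 1 / 2 ^ kk m) _ (fun _ _ => by positivity) hw
    (fun i => (fin_fib kk_top (en.symm i).1).subset fun m hm => by
      obtain ⟨r, -, rfl⟩ := mem_image.1 (show i ∈ line m from hm)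
      exact (pt_fst m r).symm) (fun A => (key A).1) hδ
  obtain ⟨k, hk1, hk2⟩ : ∃ k, (∀ i l, max N1 N2 ≤ en (k, i, l)) ∧ 4 / (δ * η) < 2 ^ k := by
    refine (Eventually.and ?_ ((tendsto_pow_atTop_atTop_of_one_lt
      (by norm_num : (1 : ℝ) < 2)).eventually_gt_atTop _)).exists
    filter_upwards [eventually_gt_atTop ((range (max N1 N2)).sup fun x => (en.symm x).1)]
      with k hk i l
    by_contra hc
    have := le_sup (f := fun x => (en.symm x).1) (mem_range.2 (not_le.1 hc))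
    simp only [Equiv.symm_apply_apply] at this
    omega
  let μ : ℕ → Set ℕ → ℝ := fun j A => ms (s j) (fun i => f i / 2 ^ j) A
  let R : ℕ → Set ℕ := fun i => {x | ∃ l < 2 ^ k, x = en (k, i, l)}
  let C : ℕ → Set ℕ := fun l => {x | ∃ i, x = en (k, i, l)}
  have bad : ∀ (L : Set ℕ) (m : ℕ), (∀ x ∈ L, N1 ≤ x) → kk m = k → (∀ r < 2 ^ k, pt m r ∈ L) →
      (((range (2 ^ k)).filter fun r => μ (lev f (pt m r)) L ≤ δ).card : ℝ) ≤ 2 ^ k / 4 := by
    intro L m hL hm hp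
    obtain ⟨B, hB⟩ : ∃ B : Set ℕ, ∀ x, x ∈ B ↔ x ∈ L ∧ μ (lev f x) L ≤ δ := ⟨{x | _}, fun _ => Iff.rfl⟩
    have := h1 B (fun x hx => hL x ((hB x).1 hx).1) (fun j => by
      by_cases h : μ j L ≤ δ
      · exact (ms_le (hw j) fun i hi hA => ⟨hi, ((hB i).1 hA).1⟩).trans h
      · refine (sum_eq_zero fun i hi => (h ?_).elim).trans_le hδ.le
        rw [← (hs i j).1 (mem_filter.1 hi).1]
        exact ((hB i).1 (mem_filter.1 hi).2).2) m
    rw [nu_eq, hm, div_le_iff₀ (by positivity), filter_congr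
      (q := fun r => μ (lev f (pt m r)) L ≤ δ) fun r hr => by
        rw [hB, and_iff_right (hp r (mem_range.1 hr))]] at this
    linarith
  obtain ⟨i, hi, hrow⟩ : ∃ i ∈ range (2 ^ k), (((range (2 ^ k)).filter fun l =>
      μ (lev f (en (k, i, l))) (C l) ≤ δ).card : ℝ) ≤ 2 ^ k / 4 := by
    refine exists_le_of_sum_le (nonempty_range_iff.2 (by positivity)) ?_
    simp only [card_filter, Nat.cast_sum]
    rw [sum_comm]
    refine sum_le_sum fun l hl => ?_
    have := bad (C l) (2 ^ (k + 1) + (2 * l + 1)) (by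
      rintro _ ⟨i, rfl⟩; exact le_of_max_le_left (hk1 _ _))
      (kk_eq (by have := mem_range.1 hl; omega)) fun r _ => ⟨r, pt_col (mem_range.1 hl) r⟩
    simpa only [card_filter, Nat.cast_sum, pt_col (mem_range.1 hl)] using this
  have hrow' := bad (R i) (2 ^ (k + 1) + 2 * i) (by
      rintro _ ⟨l, -, rfl⟩; exact le_of_max_le_left (hk1 _ _))
      (kk_eq (by have := mem_range.1 hi; omega)) fun r hr => ⟨r, hr, pt_row (mem_range.1 hi) r⟩
  simp only [pt_row (mem_range.1 hi)] at hrow'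
  let g : ℕ → ℕ := fun l => lev f (en (k, i, l))
  let G := (range (2 ^ k)).filter fun l => δ < μ (g l) (C l) ∧ δ < μ (g l) (R i)
  have c1 : (2 : ℝ) ^ k ≤ G.card + 2 ^ k / 4 + 2 ^ k / 4 := by
    have : (range (2 ^ k)).card ≤ (G ∪ (range (2 ^ k)).filter (fun l => μ (g l) (C l) ≤ δ) ∪
        (range (2 ^ k)).filter fun l => μ (g l) (R i) ≤ δ).card := card_le_card fun l hl => by
      simp only [G, mem_union, mem_filter, hl, true_and, ← not_lt]
      tauto
    have h3 := (this.trans (card_union_le _ _)).trans (add_le_add (card_union_le _ _) le_rfl)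
    rw [card_range] at h3
    have h4 := (Nat.cast_le (α := ℝ)).2 h3
    push_cast at h4
    linarith
  have c2 : ∀ j, ((G.filter fun l => g l = j).card : ℝ) * δ ≤ 2 := fun j => by
    refine le_trans ?_ (mass hf hs j)
    rw [← nsmul_eq_mul, ← sum_const]
    refine (sum_le_sum (g := fun l => μ j (C l)) fun l hl => ?_).trans ?_
    · rw [← (mem_filter.1 hl).2]; exact (mem_filter.1 (mem_filter.1 hl).1).2.1.le
    · simp only [μ, ms]
      rw [← sum_biUnion]
      · exact sum_le_sum_of_subset_of_nonneg (biUnion_subset.2 fun l _ => filter_subset _ _)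
          fun x _ _ => hw j x
      · intro l _ l' _ h
        refine disjoint_left.2 fun x a b => h ?_
        obtain ⟨u, rfl⟩ := (mem_filter.1 a).2
        obtain ⟨v, e⟩ := (mem_filter.1 b).2
        exact (Prod.mk.inj (Prod.mk.inj (en.injective e)).2).2
  have c3 : ∀ j ∈ G.image g, η * 2 ^ k ≤ ((range (2 ^ k)).filter fun l => g l = j).card := by
    intro j hj
    obtain ⟨l, hl, rfl⟩ := mem_image.1 hj
    obtain ⟨B, hB⟩ : ∃ B : Set ℕ, ∀ x, x ∈ B ↔ x ∈ R i ∧ lev f x = g l := ⟨{x | _}, fun _ => Iff.rfl⟩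
    by_contra hc
    refine (mem_filter.1 hl).2.2.not_ge ((ms_le (hw _) fun x hx hA =>
      ⟨hx, (hB x).2 ⟨hA, (hs _ _).1 hx⟩⟩).trans (h2 B (fun x hx => ?_) (fun m => ?_) (g l)))
    · obtain ⟨l, -, rfl⟩ := ((hB x).1 hx).1
      exact le_of_max_le_right (hk1 _ _)
    by_cases hm : kk m = k
    · rw [ms_div, hm, div_le_iff₀ (by positivity), ms, sum_const, nsmul_eq_mul, mul_one]
      refine le_trans ?_ (not_le.1 hc).le
      rw [Nat.cast_le]
      refine le_trans (card_le_card fun x hx => ?_) (card_image_le (f := fun l => en (k, i, l)))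
      obtain ⟨⟨u, hu, rfl⟩, h3⟩ := (hB x).1 (mem_filter.1 hx).2
      exact mem_image_of_mem _ (mem_filter.2 ⟨mem_range.2 hu, h3⟩)
    · refine (sum_eq_zero fun x hx => (hm ?_).elim).trans_le hη.le
      obtain ⟨r, -, rfl⟩ := mem_image.1 (show x ∈ line m from (mem_filter.1 hx).1)
      obtain ⟨⟨u, -, e⟩, -⟩ := (hB _).1 (mem_filter.1 hx).2
      rw [← pt_fst m r, e, Equiv.symm_apply_apply]
  have c4 : ((G.image g).card : ℝ) * (η * 2 ^ k) ≤ 2 ^ k := by
    rw [← nsmul_eq_mul, ← sum_const]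
    refine (sum_le_sum c3).trans ?_
    rw [← Nat.cast_sum, ← card_biUnion]
    · exact_mod_cast (card_le_card (biUnion_subset.2 fun j _ => filter_subset _ _)).trans
        (card_range _).le
    · intro j _ j' _ h
      exact disjoint_left.2 fun x a b => h ((mem_filter.1 a).2.symm.trans (mem_filter.1 b).2)
  have c5 : (G.card : ℝ) * δ ≤ (G.image g).card * 2 := by
    rw [card_eq_sum_card_image g G, Nat.cast_sum, sum_mul, ← nsmul_eq_mul, ← sum_const]
    exact sum_le_sum fun j _ => c2 j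
  have c6 : ((G.image g).card : ℝ) * η ≤ 1 := by
    have : (0 : ℝ) < 2 ^ k := by positivity
    nlinarith
  rw [div_lt_iff₀ (by positivity)] at hk2
  nlinarith [mul_le_mul_of_nonneg_right c5 hη.le, mul_le_mul_of_nonneg_right c1 (mul_pos hδ hη).le]

theorem result : ∃ I : Set (Set ℕ), IsIdeal I ∧ RB I Z ∧ RB Z I ∧ Kat I Z ∧ Kat Z I ∧
    ¬ IsEU I := by
  have hφ : ∀ n, (φ ⁻¹' {n}).Finite := fun n =>
    (fin_fib (kk_top.comp (tendsto_log.comp (tendsto_add_atTop_nat 1))) (en.symm n).1).subset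
      fun x hx => by rw [← show φ x = n from hx]; exact (pt_fst _ _).symm
  have hψ : ∀ A, A ∈ Z ↔ φ ⁻¹' (ψ ⁻¹' A) ∈ Z := fun A => by
    rw [mem_I, mem_Z]
    simp only [nu_psi]
    refine ⟨fun h => h.comp kk_top, fun h => ?_⟩
    have := h.comp ((tendsto_pow_atTop_atTop_of_one_lt (by norm_num : 1 < 2)).comp
      (tendsto_add_atTop_nat 1))
    refine this.congr fun k => ?_
    have e : kk (2 ^ (k + 1)) = k := kk_eq (x := 0) (by positivity)
    simp only [Function.comp, e]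
  have h0 : ∀ (m : ℕ) (_ : ℕ), (0 : ℝ) ≤ 1 / 2 ^ kk m := fun _ _ => by positivity
  refine ⟨{A | φ ⁻¹' A ∈ Z}, ⟨fun A hA B hB => ?_, fun A hA B h => ?_, fun h => ?_,
    fun A hA => ?_⟩, ⟨φ, hφ, fun _ => Iff.rfl⟩, ⟨ψ, fun n => ?_, hψ⟩, ⟨φ, fun _ h => h⟩,
    ⟨ψ, fun A => (hψ A).1⟩, not_eu⟩
  · refine mem_I.2 (squeeze_zero (fun m => ms_nonneg (h0 m)) (fun m => ?_)
      (by simpa using (mem_I.1 hA).add (mem_I.1 hB)))
    have := ms_biUnion (s := line m) (A := A ∪ B) (h0 m) {0, 1} (fun k => if k = 0 then A else B)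
      fun i _ hi => by simpa using hi
    simpa using this
  · exact mem_I.2 (squeeze_zero (fun m => ms_nonneg (h0 m))
      (fun m => ms_le (h0 m) fun i hi hB => ⟨hi, h hB⟩) (mem_I.1 hA))
  · have := mem_I.1 h
    simp only [nu_eq] at this
    simp at this
  · obtain ⟨N, hN⟩ := (hA.preimage' fun n _ => hφ n).bddAbove
    refine mem_Z.2 (tendsto_const_nhds.congr' ?_)
    filter_upwards [far (s := blk) (fun i => (Set.finite_singleton (Nat.log 2 (i + 1))).subset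
      fun j hj => (mem_blk.1 hj).symm) (N + 1)] with j hj
    rw [filter_false_of_mem fun x hx h => by have := hj x hx; have := hN h; omega]
    simp
  · refine Set.Finite.subset (((Set.finite_le_nat n).prod ((Set.finite_lt_nat ((n + 1) * 2 ^ n)).prod
      (Set.finite_lt_nat ((n + 1) * 2 ^ n)))).image en) fun x hx => ?_
    obtain ⟨⟨k, i, l⟩, rfl⟩ := en.surjective x
    have h : ψ (en (k, i, l)) = n := hx
    simp only [ψ, Equiv.symm_apply_apply] at h
    have h1 : k < 2 ^ k := Nat.lt_two_pow_self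
    have h4 : k ≤ n ∧ i / 2 ^ k ≤ n ∧ l / 2 ^ k ≤ n := by
      have : ∀ a b c d : ℕ, k < d → d - 1 + c + (a + b) = n → k ≤ n ∧ a ≤ n ∧ b ≤ n := by
        intro a b c d; omega
      exact this _ _ _ _ h1 h
    have h2 : 2 ^ k ≤ 2 ^ n := Nat.pow_le_pow_right (by norm_num) h4.1
    have h3 : ∀ a, a / 2 ^ k ≤ n → a < (n + 1) * 2 ^ n := fun a ha =>
      ((Nat.div_lt_iff_lt_mul (by positivity)).1 (Nat.lt_succ_of_le ha)).trans_le
        (Nat.mul_le_mul_left _ h2)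
    exact ⟨(k, i, l), ⟨h4.1, h3 i h4.2.1, h3 l h4.2.2⟩, rfl⟩

end Pool.Agent.Results.MP_8a0632_lc.RowsColumns
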